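import Pool.Agent.Run7.h132.KT.J

/-!
# Kernels with finite orbits of subgroups, and automorphism groups, for the Farrell-Jones conjecture

`C` is a class of groups with the closure properties of the Farrell-Jones conjecture (`ClosedE`:
subgroups, finite products, free products, overgroups of finite index, directed colimits, and the
extension criterion for preimages of virtually cyclic subgroups), which contains the solvable groups
and the groups `F ⋊ ℤ`, `F` free.  A group `N` is a good kernel (`Good C N`) if `G ∈ C` whenever `G`
has a normal subgroup isomorphic to `N` with the quotient in `C`.

(1) `N` is a good kernel if and only if all mapping tori `N ⋊ ℤ` are in `C`.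

(2) Good kernels. Let the groups in `B` be good kernels, and let `F` consist of finitely generated
good kernels of the type `IsQ` of helper41: torsion-free nonzero abelianization `A`, a crossed
homomorphism to `ℤ[A]` which does not vanish on the commutator subgroup, and no nontrivial finitely
generated normal subgroup in the commutator subgroup.  Then all groups in `Ker B F` are good kernels.
This is the smallest class which contains `B` and is closed under
* extensions with a normal subgroup which has finitely many images under the automorphisms,
* finitely generated overgroups of finite index,
* groups `N` with a subgroup `H` of finite index and a finitely generated normal subgroup `M` of `H`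
  in the class with `H / M` in `F`,
* finite direct products of directly indecomposable groups with trivial centre.
So the terms of the subnormal chains of `N` which appear here are not assumed to be normal in `G`, nor
in `N`.

(3) The groups in `Fac`, free groups of finite rank `≥ 2`, surface groups of genus `≥ 2` and the groups
`⟨a, t, Y | [a, t] P⟩`, `1 ≠ P ∈ [F_Y, F_Y]`, may be taken for `F`, and the groups which are virtually
subgroups of finite products of free-by-solvable groups for `B`.

(4) Automorphism groups. If the automorphism groups of the groups in `B` and `F` are in `C`, where `F`
consists of finitely generated groups of the type `IsQ`, then the automorphism groups of all groups in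
`Ker B F` are in `C`.

(5) `Aut F₂` is in `C`, so that free groups of rank two may be used in (4).

For the class of the groups which satisfy the (full) Farrell-Jones conjecture, (2) and (3) contain the
extensions whose kernels are poly-free with finitely generated terms and noncyclic factors,
fundamental groups of iterated surface bundles, and all finitely generated groups commensurable to
these; the kernels may begin with any finitely generated group all of whose mapping tori are in the
class, for example a hyperbolic group.  By (4) and (5) and the theorem of Bartels and Bestvina on
mapping class groups, the automorphism groups of the kernels whose factors are surface groups and free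
groups of rank two are in the class.

Proof.  `good_step`: if `M` has finitely many images under `Aut N`, then a subgroup `G₁` of finite index
of `G` normalizes `M`; the group `G₁ ∩ N` is the normalizer of `M` in `N`, and one applies the
hypothesis first to `G₁ / M` and then to `G₁`.  The finiteness theorem for finitely generated `M` with
`N / M` of the type `IsQ` is due to helper41 (`MP_4e1912_gt.AutTowers`); here it is used for subgroups
of finite index of `N`, which have finitely many images if `N` is finitely generated.  For (4), the
kernel of `Stab M → Aut M × Aut (N / M)` is abelian, and the kernel of `Stab H → Aut H` is virtually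
abelian for `H` of finite index.  For (5), `Out F₂` embeds in `GL₂ ℤ` (helpers 574 and 909).
-/

set_option autoImplicit false

namespace Pool.Agent.Results.MP_b6f35e_al.FiniteOrbitKernels

open Pool.Agent.Y110.FJ Pool.Agent.Run7.h132.FJ Pool.Agent.Run7.h132.KT
open Run7.h41.PF (IsQ)

theorem result (C : ∀ (G : Type) [Group G], Prop) (hC : ClosedE C)
    (hF : Pool.Agent.R684.FP.FbC C) (hS : Solv C) :
    (∀ (N : Type) [Group N], Good C N ↔ Tori C N) ∧
    (∀ B F : ∀ (G : Type) [Group G], Prop, (∀ (G : Type) [Group G], B G → Good C G) →
      (∀ (G : Type) [Group G], F G → IsQ G ∧ Group.FG G ∧ Good C G) →
      ∀ (N : Type) [Group N], Ker B F N → Good C N) ∧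
    ((∀ (G : Type) [Group G], VirtProd G → Good C G) ∧
      ∀ (G : Type) [Group G], Fac G → IsQ G ∧ Group.FG G ∧ Good C G) ∧
    (∀ B F : ∀ (G : Type) [Group G], Prop, (∀ (G : Type) [Group G], B G → C (MulAut G)) →
      (∀ (G : Type) [Group G], F G → IsQ G ∧ Group.FG G ∧ C (MulAut G)) →
      ∀ (N : Type) [Group N], Ker B F N → C (MulAut N)) ∧
    C (MulAut (FreeGroup (Fin 2))) :=
  ⟨fun N _ => good_iff hC hS N, fun _ _ hB hQ N _ h => ker_good hC hB hQ N h,
    ⟨fun _ _ h => good_vp hC hF hS h, fun _ _ h => ⟨h.isQ, h.fg, good_vp hC hF hS h.vp⟩⟩,
    fun _ _ hB hQ N _ h => ker_aut hC hF hS hB hQ N h, aut_F2 hC hF hS⟩

end Pool.Agent.Results.MP_b6f35e_al.FiniteOrbitKernels
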