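import Pool.Agent.Run7.h16.GE.K1

/-!
Groups with a normal subgroup which has a system of retractions (for instance a free product or a
graph product), and the rational injectivity of the assembly maps in algebraic `K`-theory, for an
arbitrary coefficient ring.

`R` is any ring, `rat (kgr R)` is the functor `G ↦ ℚ ⊗ K₁(R[G])`, and `hq j` is the functor
`G ↦ H_j(G; ℚ)`. The class `𝒦_R` is the class of the groups `G` with `DetK R G`: for every group `T` and
every family of transformations `α_{j,i} : H_j(G; ℚ) → ℚ ⊗ K₁(R[G × T])`, `i ∈ I_j`, natural in the
group `G`, such that the `α_{j,i}`, `i ∈ I_j`, are linearly independent on `ℤ^j` for each `j`, the sum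
of all the `α_{j,i}` is injective on `G`. The components `H_j(G; ℚ) ⊗ K_{1-j}(R) → K₁(R[G]) ⊗ ℚ` of the
rational assembly map form such a family (`i` runs through a basis of `K_{1-j}(R) ⊗ ℚ`; they are
independent on `ℤ^j` by the fundamental theorem of algebraic `K`-theory), and the groups
`K_n(R[G])`, `n ≤ 1`, are direct summands of `K₁(R[ℤ^m][G])`. So for a torsion-free group in the class
(for all `R`) the assembly map is rationally injective in degrees `n ≤ 1`.

Let `H` be a subgroup of finite index in `G`, and let `K` be a normal subgroup of `H`. Then `G` is in
the class in each of the following cases.

* There are endomorphisms `f_i` of `H` (`i ∈ I`, `I` nonempty) which induce the identity on `H / K`,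
  the images `f_i(H)` are in the class, the restrictions of the `f_i` to `K` are idempotent and
  commute, the product of two of them is one of them or trivial, and `H_n(K; ℚ)` is the sum of their
  images for all `n`.
* `K` is the quotient of a free product of groups `P_v`, `v ∈ V`, by local relations, and for each
  nonempty finite set `σ` of pairwise linked indices there is a subgroup `B_σ` of `H` in the class with
  `B_σ K = H` such that `B_σ ∩ K` is the subgroup `K_σ` generated by the images of the `P_v`, `v ∈ σ`.
* `K` is a graph product, and the same holds for each nonempty finite clique `σ` of the graph.
* `K` is the free product of nontrivial groups `K_v`, such that each element of `H` conjugates each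
  `K_v` to a subgroup conjugate to it in `K`, and the normalizers of the `K_v` in `H` are in the class.

For instance `G = K ⋊ Q` may be a semidirect product of a free product `K` of groups `K_v` with a group
`Q` of automorphisms of `K` each of which maps each `K_v` to a conjugate (for instance the
Fouxe-Rabinovitch group). No assumption on `Q` itself is needed.

Outline of the proof. Let `y` be a class of `H_n(K; M)`, for a `ℚ[H / K]`-module `M`, whose image in
`H_n(H; M)` is killed by all `f_i`. The classes `e_i y` (`e_i` is the restriction of `f_i` to `K`) die
in `H_n(H; M)`, so `y` and `∏ (1 - e_i) y` have the same image there. As `y` is a sum of classes in the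
images of the `e_i`, the latter class is zero for a suitable finite product. By dimension shifting this
shows that `H_n(H; M)` is detected by the `f_i` for all `M`. For a local quotient `K` the retraction of
`K` to `K_σ` extends to `H → B_σ`, as its kernel is normal in `H`. (The homological part is that of my
result `MP_01534c_gt` RetractionSystems on the higher signatures.)
-/

namespace Pool.Agent.Results.MP_b6f35e_al.RetractionSystems

open Run7.h16.GE Run7.h16.DS Pool.Agent.R615.KU

theorem result (R : Type) [Ring R] : SysClosed (fun G _ => DetK R G) := sysClosed_detK R

end Pool.Agent.Results.MP_b6f35e_al.RetractionSystems
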