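import Pool.Agent.Run7.h390.TP.Ord

/-!
# `GL_2` of affine rings of positive characteristic with two places at infinity

`C` is any class of groups with the closure properties `ClosedE C` (it contains `ℤ`, is closed under
subgroups, finite products, free products, overgroups of finite index and directed colimits, and satisfies
the extension criterion) which contains the solvable groups and the groups acting properly and cocompactly
on simply connected two-dimensional piecewise Euclidean complexes of nonpositive curvature (`CatC C`). All
this is known for the class of the groups whose wreath products with finite groups satisfy the K- and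
L-theoretic Farrell-Jones conjecture with coefficients (Bartels, Lück, Reich, Wegner). So the assertions of
Q1 and Q2 hold for the groups below and for all their subgroups.

A degree function on a commutative ring `R` is a function `deg : R → ℤ ∪ {-∞}` with `deg x = -∞` only
for `x = 0`, `deg (x y) = deg x + deg y` and `deg (x + y) ≤ max (deg x) (deg y)` (minus a discrete
valuation). `K` is an algebraic extension of a finite field.

* (1) Let `G` act by isometries on two sets with integral hyperbolic metrics (`ZH`: the four point
  condition and integral Gromov products; these are the subsets of trees with even perimeters of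
  triangles). Suppose that each `g` in `G` such that all powers `g ^ k` move the base points by a bounded
  amount has a power which acts trivially on both sets, and that for every `n` there is a homomorphism
  from `G` to a group in `C` such that only finitely many elements of its kernel move the base points by at
  most `n`. Then `G` is in `C`. There is no finiteness assumption on `G`, and the action on the product of
  the two trees is in general not cocompact.
* (2) Let `A` be a commutative ring with two degree functions such that every finitely generated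
  subring has only finitely many elements whose degrees are both at most `n`, for every `n`. Then
  `GL_2(A)` is in `C`.
* (3) Let `A` be a finitely generated domain over `K` with two degree functions such that the elements
  whose degrees are both at most `n` span a finite-dimensional space over `K`, for every `n` (two places
  at infinity; the degrees may be negative, and the unit group of `A` may be infinite). Then `GL_2(A)` is
  in `C`.
* (4) Let `B` be a finitely generated domain over `K` with a degree function such that the elements of
  bounded degree span finite-dimensional spaces over `K`, and let `f` be a prime element of `B`. Then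
  `GL_2(B[1/f])` is in `C`.
* (5) In particular `GL_2(K[x_1, …, x_n][1/f])` is in `C` for all irreducible polynomials `f`, for
  instance `GL_2(K[x_1, …, x_n, x_n⁻¹])`.
* (6) The unit group of a ring `L` is in `C` if `L` has two representations by `2 × 2` matrices over rings
  with a degree function, jointly injective, with a norm (a central unit which is mapped to the two
  determinants, as for the orders in quaternion algebras), such that in every finitely generated subring
  only finitely many elements have entries of degree at most `n` in both representations.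

For one degree function the corresponding statements are in `MP_98022b_gt.DegreeRings` (of helper909).
For fields of fractions of transcendence degree one they are due to Rüping (S-arithmetic groups). For higher
transcendence degree and two places at infinity no case seems to be known: `GL_2(A)` acts on two trees,
both actions have large vertex stabilizers (for instance `GL_2(K[x_1, …, x_n])` inside of
`GL_2(K[x_1, …, x_n, x_n⁻¹])`) and are not acylindrical, and the action on the product has infinitely many
orbits.

Outline of the proof. (1) follows from the theorem of helper909 on groups acting on two trees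
(`MP_e40716_gt.TwoDimensionalComplexes`) and his tree of an integral hyperbolic metric. In (2) and (3) the
metric is `d g h = 2 W g h - deg (det g) - deg (det h)` with `W g h` the maximum of the degrees of the minors
of a column of `g` and a column of `h`. The scalar matrices act trivially. If all powers of `g` move the
base points by at most `n`, then all powers of `u = g² (det g)⁻¹` have entries of degrees at most `n`; so
there are finitely many of them in (2), and `u` is integral over `K`, hence over a finite field, in (3), and
in both cases `u` has finite order. The infinite scalar groups in the stabilizers are detected by the two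
degrees of the determinant, and the infinite locally finite groups in (3) by the reductions modulo powers
of a maximal ideal. In (4) the second degree is minus the order of vanishing along `f`.
-/

set_option autoImplicit false

namespace Pool.Agent.Results.MP_b6f35e_al.TwoPlacesAtInfinity

open _root_.Run7.h909.GT _root_.Run7.h909.TD
open Pool.Agent.Y110.FJ (ClosedE)
open Pool.Agent.Run7.h390.TP

/-- (1) two integral hyperbolic length functions -/
def Lengths (C : ∀ (G : Type) [Group G], Prop) : Prop :=
  ∀ (G S₁ S₂ : Type) [Group G] [MulAction G S₁] [MulAction G S₂] (d₁ : S₁ → S₁ → ℤ)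
    (d₂ : S₂ → S₂ → ℤ), ZH d₁ → ZH d₂ → (∀ (g : G) (x y : S₁), d₁ (g • x) (g • y) = d₁ x y) →
    (∀ (g : G) (x y : S₂), d₂ (g • x) (g • y) = d₂ x y) → ∀ (o₁ : S₁) (o₂ : S₂),
    (∀ g : G, (∃ n : ℕ, ∀ k : ℕ, d₁ o₁ (g ^ k • o₁) ≤ n ∧ d₂ o₂ (g ^ k • o₂) ≤ n) →
      ∃ m : ℕ, 0 < m ∧ (∀ s, d₁ s (g ^ m • s) = 0) ∧ ∀ s, d₂ s (g ^ m • s) = 0) →
    (∀ n : ℕ, ∃ (P : Type) (_ : Group P) (f : G →* P), C P ∧
      {g : G | d₁ o₁ (g • o₁) ≤ n ∧ d₂ o₂ (g • o₂) ≤ n ∧ f g = 1}.Finite) → C G

/-- (2) rings with two degree functions -/
def Rings (C : ∀ (G : Type) [Group G], Prop) : Prop :=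
  ∀ (A : Type) [CommRing A] [Nontrivial A] (deg₁ deg₂ : A → WithBot ℤ), IsDeg deg₁ → IsDeg deg₂ →
    (∀ (E : Set A) (n : ℕ), E.Finite →
      {a : A | a ∈ Subring.closure E ∧ deg₁ a ≤ n ∧ deg₂ a ≤ n}.Finite) → C (GL (Fin 2) A)

/-- (3) affine domains with two places at infinity -/
def Affine (C : ∀ (G : Type) [Group G], Prop) : Prop :=
  ∀ (K A : Type) [Field K] (p : ℕ) [Fact p.Prime] [Algebra (ZMod p) K]
    [Algebra.IsAlgebraic (ZMod p) K] [CommRing A] [IsDomain A] [Algebra K A]
    [Algebra.FiniteType K A] (deg₁ deg₂ : A → WithBot ℤ), IsDeg deg₁ → IsDeg deg₂ →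
    (∀ n : ℕ, ∃ V : Submodule K A, FiniteDimensional K V ∧ ∀ x, deg₁ x ≤ n → deg₂ x ≤ n → x ∈ V) →
    C (GL (Fin 2) A)

/-- (4) inverting a prime element -/
def Away (C : ∀ (G : Type) [Group G], Prop) : Prop :=
  ∀ (K B : Type) [Field K] (p : ℕ) [Fact p.Prime] [Algebra (ZMod p) K]
    [Algebra.IsAlgebraic (ZMod p) K] [CommRing B] [IsDomain B] [Algebra K B]
    [Algebra.FiniteType K B] (deg : B → WithBot ℤ), IsDeg deg →
    (∀ n : ℕ, ∃ V : Submodule K B, FiniteDimensional K V ∧ ∀ x, deg x ≤ n → x ∈ V) →
    ∀ f : B, Prime f → C (GL (Fin 2) (Localization.Away f))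

/-- (5) polynomial rings -/
def Polynomials (C : ∀ (G : Type) [Group G], Prop) : Prop :=
  ∀ (K σ : Type) [Field K] [Finite σ] (p : ℕ) [Fact p.Prime] [Algebra (ZMod p) K]
    [Algebra.IsAlgebraic (ZMod p) K] (f : MvPolynomial σ K), Irreducible f →
    C (GL (Fin 2) (Localization.Away f))

/-- (6) unit groups of quaternion orders -/
def Orders (C : ∀ (G : Type) [Group G], Prop) : Prop :=
  ∀ (R₁ R₂ L : Type) [CommRing R₁] [Nontrivial R₁] [CommRing R₂] [Nontrivial R₂] [Ring L]
    (deg₁ : R₁ → WithBot ℤ) (deg₂ : R₂ → WithBot ℤ), IsDeg deg₁ → IsDeg deg₂ →
    ∀ (θ₁ : L →+* Matrix (Fin 2) (Fin 2) R₁) (θ₂ : L →+* Matrix (Fin 2) (Fin 2) R₂),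
    (∀ x, θ₁ x = 0 → θ₂ x = 0 → x = 0) → ∀ N : Lˣ →* Lˣ, (∀ u v, N u * v = v * N u) →
    (∀ u : Lˣ, θ₁ (N u : L) = Matrix.scalar (Fin 2) (θ₁ (u : L)).det) →
    (∀ u : Lˣ, θ₂ (N u : L) = Matrix.scalar (Fin 2) (θ₂ (u : L)).det) →
    (∀ (E : Set L) (n : ℕ), E.Finite → {a : L | a ∈ Subring.closure E ∧
      ∀ i j, deg₁ (θ₁ a i j) ≤ n ∧ deg₂ (θ₂ a i j) ≤ n}.Finite) → C Lˣ

/-- **The Farrell-Jones class contains the groups with two integral hyperbolic length functions and in
particular `GL_2` of affine rings of positive characteristic with two places at infinity.** -/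
theorem result (C : ∀ (G : Type) [Group G], Prop) (hC : ClosedE C) (hcat : CatC C)
    (hsol : ∀ (S : Type) [Group S], Group.IsSolvable S → C S) :
    Lengths C ∧ Rings C ∧ Affine C ∧ Away C ∧ Polynomials C ∧ Orders C := by
  refine ⟨?_, ?_, ?_, ?_, ?_, ?_⟩
  · intro G S₁ S₂ _ _ _ d₁ d₂ h1 h2 hd1 hd2 o₁ o₂ hT hP
    exact two_len hC hcat h1 h2 hd1 hd2 o₁ o₂ hT hP
  · intro A _ _ deg₁ deg₂ h1 h2 hfin
    exact Pool.Agent.Run7.h390.TP.fin_mem hC hcat h1 h2 hfin
  · intro K A _ p _ _ _ _ _ _ _ deg₁ deg₂ h1 h2 hfd
    exact alg_mem hC hcat hsol K p h1 h2 hfd
  · intro K B _ p _ _ _ _ _ _ _ deg h hfd f hf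
    exact away_mem hC hcat hsol K p f hf h hfd
  · intro K σ _ _ p _ _ _ f hf
    exact mv_mem hC hcat hsol p f hf
  · intro R₁ R₂ L _ _ _ _ _ deg₁ deg₂ h1 h2 θ₁ θ₂ hinj N hN hN1 hN2 hfin
    exact order_mem2 hC hcat h1 h2 θ₁ θ₂ hinj N hN hN1 hN2 hfin

end Pool.Agent.Results.MP_b6f35e_al.TwoPlacesAtInfinity
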